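import Pool.Agent.Lib.MP_688fd0_co.SQ3.Iface

/-!
EXT (helper62): a flat window of a frontier `F` is a flat window of every larger frontier `F'` (the new strands go straight);
versions and changes of volume stay the same. No condition on `F'` is needed.
-/

set_option autoImplicit false

namespace Pool.Agent.Lib.MP_688fd0_co.SQ5.H62

open Pool.Agent.Lib.MP_688fd0_co.OSF Pool.Agent.Lib.MP_688fd0_co.SQ2 Pool.Agent.Lib.MP_688fd0_co.SQ3

universe u v w

section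

variable {Q : Type u} [Group Q] [DecidableEq Q] {B : Lb.{u, v} Q} {U : Up B}

/-- The window with more strands. -/
def ext (U : Up B) (X : TW B) (L : Finset Q) (n : ℕ) (xs : Q) (h : Flat U X n xs) (hL : X.L₀ ⊆ L) : TW B where
  L₀ := L
  L₁ := im (U.U ^ n) L
  u₀ := X.u₀
  u₁ := X.u₁
  w₀ := X.w₀
  w₁ := X.w₁
  cup := X.cup
  cap := X.cap
  f := fun x => if x ∈ X.L₀ then X.f x else (U.U ^ n) x
  path := fun x => if x ∈ X.L₀ then X.path x else U.str n x
  hu₀ := hL X.hu₀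
  hu₁ := hL X.hu₁
  hu := X.hu
  hw₀ := by rw [h.w₀]; exact map_mem_im.2 (hL X.hu₁)
  hw₁ := by rw [h.w₁]; exact map_mem_im.2 (hL (TW.mem_tok₀.1 h.xs_mem).1)
  hw := X.hw
  cup_fin := X.cup_fin
  cap_fin := X.cap_fin
  path_fin := fun x hx h0 h1 => by
    by_cases hm : x ∈ X.L₀
    · rw [if_pos hm, if_pos hm]; exact X.path_fin x hm h0 h1
    · rw [if_neg hm, if_neg hm]; exact U.fin_str n x
  f_mem := fun x hx h0 h1 => by
    by_cases hm : x ∈ X.L₀
    · rw [if_pos hm]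
      obtain ⟨a1, a2, a3⟩ := X.f_mem x hm h0 h1
      refine ⟨?_, a2, a3⟩
      rw [h.top, mem_im] at a1
      exact mem_im.2 (hL a1)
    · rw [if_neg hm]
      refine ⟨map_mem_im.2 hx, fun e => hm ?_, fun e => hm ?_⟩
      · rw [h.w₀] at e
        rw [(U.U ^ n).injective e]; exact X.hu₁
      · rw [h.w₁] at e
        rw [(U.U ^ n).injective e]; exact (TW.mem_tok₀.1 h.xs_mem).1
  f_inj := fun x hx h0 h1 y hy h0' h1' he => by
    have key : ∀ x y : Q, x ∈ X.L₀ → x ≠ X.u₀ → x ≠ X.u₁ → y ∉ X.L₀ → X.f x ≠ (U.U ^ n) y := by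
      intro x y hx h0 h1 hy he
      have a1 := (X.f_mem x hx h0 h1).1
      rw [h.top, he] at a1
      exact hy (map_mem_im.1 a1)
    by_cases hm : x ∈ X.L₀ <;> by_cases hm' : y ∈ X.L₀
    · rw [if_pos hm, if_pos hm'] at he
      exact X.f_inj x hm h0 h1 y hm' h0' h1' he
    · rw [if_pos hm, if_neg hm'] at he
      exact absurd he (key x y hm h0 h1 hm')
    · rw [if_neg hm, if_pos hm'] at he
      exact absurd he.symm (key y x hm' h0' h1' hm)
    · rw [if_neg hm, if_neg hm'] at he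
      exact (U.U ^ n).injective he
  f_surj := fun y hy h0 h1 => by
    by_cases hm : y ∈ X.L₁
    · obtain ⟨x, a1, a2, a3, a4⟩ := X.f_surj y hm h0 h1
      exact ⟨x, hL a1, a2, a3, by rw [if_pos a1]; exact a4⟩
    · obtain ⟨x, rfl⟩ := (U.U ^ n).surjective y
      have hx : x ∈ L := map_mem_im.1 hy
      have hx' : x ∉ X.L₀ := fun h' => hm (by rw [h.top]; exact map_mem_im.2 h')
      exact ⟨x, hx, fun e => hx' (by rw [e]; exact X.hu₀), fun e => hx' (by rw [e]; exact X.hu₁), if_neg hx'⟩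

variable {X : TW B} {L : Finset Q} {n : ℕ} {xs : Q} (h : Flat U X n xs) (hL : X.L₀ ⊆ L)

theorem ext_tok : (ext U X L n xs h hL).tok₀ = X.tok₀ ∪ (L \ X.L₀) := by
  ext x
  rw [TW.mem_tok₀, Finset.mem_union, TW.mem_tok₀, Finset.mem_sdiff]
  show x ∈ L ∧ x ≠ X.u₀ ∧ x ≠ X.u₁ ↔ _
  constructor
  · rintro ⟨h1, h2, h3⟩
    by_cases hm : x ∈ X.L₀
    · exact Or.inl ⟨hm, h2, h3⟩
    · exact Or.inr ⟨h1, hm⟩
  · rintro (⟨h1, h2, h3⟩ | ⟨h1, h2⟩)
    · exact ⟨hL h1, h2, h3⟩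
    · exact ⟨h1, fun e => h2 (by rw [e]; exact X.hu₀), fun e => h2 (by rw [e]; exact X.hu₁)⟩

theorem tok_disj (X : TW B) (L : Finset Q) : Disjoint X.tok₀ (L \ X.L₀) := by
  rw [Finset.disjoint_left]
  intro x hx hx'
  exact (Finset.mem_sdiff.1 hx').2 (TW.mem_tok₀.1 hx).1

theorem ext_sum {M : Type*} [AddCommMonoid M] (φ : Q → List B.L → M) :
    ∑ x ∈ (ext U X L n xs h hL).tok₀, φ x ((ext U X L n xs h hL).path x) =
      ∑ x ∈ X.tok₀, φ x (X.path x) + ∑ x ∈ L \ X.L₀, φ x (U.str n x) := by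
  rw [ext_tok, Finset.sum_union (tok_disj X L)]
  congr 1
  · refine Finset.sum_congr rfl fun x hx => ?_
    have hx' := (TW.mem_tok₀.1 hx).1
    show φ x (if x ∈ X.L₀ then X.path x else U.str n x) = _
    rw [if_pos hx']
  · refine Finset.sum_congr rfl fun x hx => ?_
    have hx' := (Finset.mem_sdiff.1 hx).2
    show φ x (if x ∈ X.L₀ then X.path x else U.str n x) = _
    rw [if_neg hx']

theorem ext_flat : Flat U (ext U X L n xs h hL) n xs where
  pos := h.pos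
  top := rfl
  reg := by
    have h1 := ext_sum h hL fun x l => (src B x l : Multiset Q)
    have h2 : (ext U X L n xs h hL).R = ∑ x ∈ (ext U X L n xs h hL).tok₀,
        (src B x ((ext U X L n xs h hL).path x) : Multiset Q) + (B.verts X.u₀ X.cup : Multiset Q) +
          ((src B X.w₀ X.cap).tail : Multiset Q) := rfl
    have h3 : X.R = ∑ x ∈ X.tok₀, (src B x (X.path x) : Multiset Q) + (B.verts X.u₀ X.cup : Multiset Q) +
          ((src B X.w₀ X.cap).tail : Multiset Q) := rfl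
    rw [h2, h1]
    have h4 : ∑ x ∈ L \ X.L₀, (src B x (U.str n x) : Multiset Q) =
        ∑ i ∈ Finset.range n, (im (U.U ^ i) (L \ X.L₀)).val := by
      rw [Finset.sum_congr rfl fun x _ => U.src_str n x, Finset.sum_comm]
      exact Finset.sum_congr rfl fun i _ => (im_val _ _).symm
    have h5 : ∀ i, (im (U.U ^ i) L).val = (im (U.U ^ i) X.L₀).val + (im (U.U ^ i) (L \ X.L₀)).val := by
      intro i
      rw [im_val, im_val, im_val, ← Finset.sum_sdiff hL, add_comm]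
    show _ = ∑ i ∈ Finset.range n, (im (U.U ^ i) L).val
    rw [Finset.sum_congr rfl fun i _ => h5 i, Finset.sum_add_distrib, ← h4, ← h.reg, h3]
    abel
  xs_mem := by
    rw [ext_tok]
    exact Finset.mem_union_left _ h.xs_mem
  w₀ := h.w₀
  w₁ := h.w₁
  f_xs := by
    show (if xs ∈ X.L₀ then X.f xs else (U.U ^ n) xs) = _
    rw [if_pos (TW.mem_tok₀.1 h.xs_mem).1]
    exact h.f_xs
  f := by
    intro x hx hne
    show (if x ∈ X.L₀ then X.f x else (U.U ^ n) x) = _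
    by_cases hm : x ∈ X.L₀
    · rw [if_pos hm]
      rw [TW.mem_tok₀] at hx
      exact h.f x (TW.mem_tok₀.2 ⟨hm, hx.2.1, hx.2.2⟩) hne
    · rw [if_neg hm]

/-- EXT: a flat window of the frontier `F` is a flat window of every larger frontier, and its versions have the same change
of volume for every weight. -/
theorem ext_all {K : ℕ} {F F' : Finset Q} (hF : F ⊆ F') {t₀ : ℕ} {x s₁ s₂ : Q} {X : TW B} {n : ℕ}
    (h : FWin U K F t₀ x s₁ s₂ X n) :
    ∃ Y : TW B, FWin U K F' t₀ x s₁ s₂ Y n ∧ ∀ X' : TW B, Ver U X X' n ((U.U ^ t₀) s₂) →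
      ∃ Y' : TW B, Ver U Y Y' n ((U.U ^ t₀) s₂) ∧
        ∀ (R : Type w) [CommRing R] (V : Vd B R) (ω : Q → R), dvolw V ω Y Y' = dvolw V ω X X' := by
  have hL : X.L₀ ⊆ im (U.U ^ t₀) F' := by
    rw [h.L₀]
    intro y hy
    rw [mem_im] at hy ⊢
    exact hF hy
  have hf := ext_flat h.flat hL
  refine ⟨ext U X (im (U.U ^ t₀) F') n _ h.flat hL, ⟨rfl, h.u₁, h.u₀, hf, h.dvd⟩, ?_⟩
  intro X' hv
  have hL' : X'.L₀ ⊆ im (U.U ^ t₀) F' := by rw [hv.L₀]; exact hL
  have hf' := ext_flat hv.flat' hL'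
  refine ⟨ext U X' (im (U.U ^ t₀) F') n _ hv.flat' hL', ⟨hf, hf', rfl, hv.u₀, hv.u₁, hv.cup, hv.cap⟩, ?_⟩
  intro R _ V ω
  have e1 : (ext U X (im (U.U ^ t₀) F') n _ h.flat hL).tok₀ = X.tok₀ ∪ (im (U.U ^ t₀) F' \ X.L₀) := ext_tok _ _
  unfold dvolw
  rw [e1, Finset.sum_union (tok_disj X _)]
  have e2 : ∑ x ∈ im (U.U ^ t₀) F' \ X.L₀, ω x * (V.vol x ((ext U X' _ n _ hv.flat' hL').path x) -
      V.vol x ((ext U X _ n _ h.flat hL).path x)) = 0 := by
    refine Finset.sum_eq_zero fun y hy => ?_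
    have hy' := (Finset.mem_sdiff.1 hy).2
    have a1 : (ext U X' _ n _ hv.flat' hL').path y = U.str n y := by
      show (if y ∈ X'.L₀ then X'.path y else U.str n y) = _
      rw [if_neg (by rw [hv.L₀]; exact hy')]
    have a2 : (ext U X _ n _ h.flat hL).path y = U.str n y := by
      show (if y ∈ X.L₀ then X.path y else U.str n y) = _
      rw [if_neg hy']
    rw [a1, a2, sub_self, mul_zero]
  rw [e2, add_zero]
  refine Finset.sum_congr rfl fun y hy => ?_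
  have hy' := (TW.mem_tok₀.1 hy).1
  have a1 : (ext U X' _ n _ hv.flat' hL').path y = X'.path y := by
    show (if y ∈ X'.L₀ then X'.path y else U.str n y) = _
    rw [if_pos (by rw [hv.L₀]; exact hy')]
  have a2 : (ext U X _ n _ h.flat hL).path y = X.path y := by
    show (if y ∈ X.L₀ then X.path y else U.str n y) = _
    rw [if_pos hy']
  rw [a1, a2]

/-- EXT for two versions. -/
theorem ext_ver {K : ℕ} {F F' : Finset Q} (hF : F ⊆ F') {t₀ : ℕ} {x s₁ s₂ : Q} {X X' : TW B} {n : ℕ}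
    (h : FWin U K F t₀ x s₁ s₂ X n) (hv : Ver U X X' n ((U.U ^ t₀) s₂)) :
    ∃ Y Y' : TW B, FWin U K F' t₀ x s₁ s₂ Y n ∧ Ver U Y Y' n ((U.U ^ t₀) s₂) ∧
      ∀ (R : Type w) [CommRing R] (V : Vd B R) (ω : Q → R), dvolw V ω Y Y' = dvolw V ω X X' := by
  obtain ⟨Y, h1, h2⟩ := ext_all.{u, v, w} hF h
  obtain ⟨Y', h3, h4⟩ := h2 X' hv
  exact ⟨Y, Y', h1, h3, h4⟩

/-- EXT for one window. -/
theorem ext_win {K : ℕ} {F F' : Finset Q} (hF : F ⊆ F') {t₀ : ℕ} {x s₁ s₂ : Q} {X : TW B} {n : ℕ}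
    (h : FWin U K F t₀ x s₁ s₂ X n) : ∃ Y : TW B, FWin U K F' t₀ x s₁ s₂ Y n := by
  obtain ⟨Y, h1, -⟩ := ext_all.{u, v, 0} hF h
  exact ⟨Y, h1⟩

end

end Pool.Agent.Lib.MP_688fd0_co.SQ5.H62
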