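import Pool.Agent.Lib.MP_688fd0_co.SQ4.Iface

/-!
The union of the frontiers of several worlds (helper62): `u ^ c d`, `0 ≤ c < e`, for all `u`, `e` with `u ^ e = z`; two
different elements of the union are not on the same line at distance at most `W`.
-/

set_option autoImplicit false

namespace Pool.Agent.Lib.MP_688fd0_co.SQ5.H62

open Pool.Agent.Lib.MP_688fd0_co.OSF Pool.Agent.Lib.MP_688fd0_co.SQ2 Pool.Agent.Lib.MP_688fd0_co.SQ3
open Pool.Agent.Lib.MP_688fd0_co.SQ4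

section

variable {Q : Type} [Group Q] {B : Lb.{0, 0} Q} {a b : B.L} {eps : Q →* ℤˣ} (ha : eps (B.q a) = -1)
  (hb : eps (B.q b) = -1)

theorem eps_ne {x : Q} : eps x ≠ 1 ↔ eps x = -1 := by
  rcases Int.units_eq_one_or (eps x) with h | h <;> rw [h] <;> decide

theorem upC_eps (x : Q) : eps ((upC B a b eps ha hb).U x) = -eps x := by
  show eps (if eps x = 1 then x * B.q a else x * (B.q b)⁻¹) = _
  split_ifs with h
  · rw [map_mul, h, ha, one_mul]
  · rw [map_mul, map_inv, eps_ne.1 h, hb]; decide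

theorem upC_epsn (n : ℕ) (x : Q) : eps (((upC B a b eps ha hb).U ^ n) x) = (-1) ^ n * eps x := by
  induction n with
  | zero => simp
  | succ n ih =>
    rw [Up.U_pow_succ', upC_eps, ih, pow_succ]
    simp

theorem upC_epsz (n : ℤ) (x : Q) : eps (((upC B a b eps ha hb).U ^ n) x) = (-1) ^ n * eps x := by
  obtain ⟨m, rfl | rfl⟩ := n.eq_nat_or_neg
  · rw [zpow_natCast, zpow_natCast]; exact upC_epsn ha hb m x
  · have h := upC_epsn ha hb m (((upC B a b eps ha hb).U ^ (-(m : ℤ))) x)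
    have h0 : ∀ y, ((upC B a b eps ha hb).U ^ m) (((upC B a b eps ha hb).U ^ m)⁻¹ y) = y := fun y => by simp
    rw [zpow_neg, zpow_natCast, h0] at h
    rw [zpow_neg, zpow_neg, zpow_natCast, zpow_natCast, h, ← mul_assoc, inv_mul_cancel, one_mul]

theorem upC_two {x : Q} (hx : eps x = 1) (n : ℕ) :
    ((upC B a b eps ha hb).U ^ (2 * n)) x = x * (B.q a * (B.q b)⁻¹) ^ n := by
  have hw : eps (B.q a * (B.q b)⁻¹) = 1 := by rw [map_mul, map_inv, ha, hb]; decide
  induction n with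
  | zero => simp
  | succ n ih =>
    have h1 : eps (x * (B.q a * (B.q b)⁻¹) ^ n) = 1 := by rw [map_mul, map_pow, hw, hx, one_pow, one_mul]
    have h2 : (upC B a b eps ha hb).U (x * (B.q a * (B.q b)⁻¹) ^ n) = x * (B.q a * (B.q b)⁻¹) ^ n * B.q a := if_pos h1
    have h3 : eps (x * (B.q a * (B.q b)⁻¹) ^ n * B.q a) ≠ 1 := by rw [map_mul, h1, ha]; decide
    have h4 : (upC B a b eps ha hb).U (x * (B.q a * (B.q b)⁻¹) ^ n * B.q a) =
        x * (B.q a * (B.q b)⁻¹) ^ n * B.q a * (B.q b)⁻¹ := if_neg h3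
    rw [show 2 * (n + 1) = 2 * n + 1 + 1 by ring, Up.U_pow_succ', Up.U_pow_succ', ih, h2, h4, pow_succ]
    simp only [mul_assoc]

theorem upC_twoz {x : Q} (hx : eps x = 1) (n : ℤ) :
    ((upC B a b eps ha hb).U ^ (2 * n)) x = x * (B.q a * (B.q b)⁻¹) ^ n := by
  have hw : eps (B.q a * (B.q b)⁻¹) = 1 := by rw [map_mul, map_inv, ha, hb]; decide
  obtain ⟨m, rfl | rfl⟩ := n.eq_nat_or_neg
  · rw [zpow_natCast, ← Nat.cast_ofNat, ← Nat.cast_mul, zpow_natCast]
    exact upC_two ha hb hx m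
  · have h1 : eps (x * (B.q a * (B.q b)⁻¹) ^ (-(m : ℤ))) = 1 := by
      rw [map_mul, map_zpow, hw, one_zpow, mul_one, hx]
    have h2 := upC_two ha hb h1 m
    rw [mul_neg, zpow_neg, Equiv.Perm.inv_eq_iff_eq, ← Nat.cast_ofNat, ← Nat.cast_mul, zpow_natCast, h2, zpow_neg,
      zpow_natCast, inv_mul_cancel_right]

/-- The frontiers of two worlds. -/
theorem two_worlds {D : Subgroup Q} (leD : D ≤ eps.ker) {u u' z : Q} {e e' : ℕ}
    (cu : ∀ x, eps x = 1 → x * u = u * x) (eu : eps u = 1) (eu' : eps u' = 1)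
    (hz : u ^ e = z) (hz' : u' ^ e' = z) (mw : z⁻¹ * (B.q a * (B.q b)⁻¹) ∈ D) (dis : ∀ n : ℤ, z ^ n ∈ D → z ^ n = 1)
    {W : ℕ} (big : e * e' * (W + 2) < orderOf z) {c c' : ℕ} (hc : c < e) (hc' : c' < e') {d d' : Q} (hd : d ∈ D)
    (hd' : d' ∈ D) {t : ℤ} (ht : |t| ≤ W)
    (h : ((upC B a b eps ha hb).U ^ t) (u ^ c * d) = u' ^ c' * d') : t = 0 := by
  have hs : eps (u ^ c * d) = 1 := by rw [map_mul, map_pow, eu, one_pow, leD hd, one_mul]
  have hs' : eps (u' ^ c' * d') = 1 := by rw [map_mul, map_pow, eu', one_pow, leD hd', one_mul]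
  -- `t` is even
  have hev : Even t := by
    have h1 := upC_epsz ha hb t (u ^ c * d)
    rw [h, hs, hs', mul_one] at h1
    by_contra ho
    rw [Int.not_even_iff_odd] at ho
    rw [ho.neg_one_zpow] at h1
    exact absurd h1 (by decide)
  obtain ⟨m, rfl⟩ := hev
  rw [← two_mul, upC_twoz ha hb hs] at h
  have ez : eps z = 1 := by rw [← hz, map_pow, eu, one_pow]
  have cz : ∀ x, eps x = 1 → Commute x z := by
    intro x hx
    rw [← hz]
    exact Commute.pow_right (cu x hx) _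
  obtain ⟨δ, hδ⟩ : ∃ δ, δ = z⁻¹ * (B.q a * (B.q b)⁻¹) := ⟨_, rfl⟩
  have hw : B.q a * (B.q b)⁻¹ = z * δ := by rw [hδ, mul_inv_cancel_left]
  have hδD : δ ∈ D := hδ ▸ mw
  have hδz : Commute δ z := cz δ (leD hδD)
  rw [hw, hδz.symm.mul_zpow] at h
  -- everything in `D` up to a power
  have h1 : (u' ^ c')⁻¹ * u ^ c * z ^ m ∈ D := by
    have h2 : (u' ^ c')⁻¹ * u ^ c * z ^ m = d' * (δ ^ m)⁻¹ * d⁻¹ := by
      have h3 : d * (z ^ m * δ ^ m) = z ^ m * (d * δ ^ m) := by
        have h4 : Commute d (z ^ m) := (cz d (leD hd)).zpow_right m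
        rw [← mul_assoc, h4.eq, mul_assoc]
      have h5 : u ^ c * (z ^ m * (d * δ ^ m)) = u' ^ c' * d' := by
        rw [← h3, ← h, mul_assoc]
      have h6 : u ^ c * z ^ m * (d * δ ^ m) = u' ^ c' * d' := by rw [← h5, mul_assoc]
      have h7 : u ^ c * z ^ m = u' ^ c' * d' * (d * δ ^ m)⁻¹ := eq_mul_inv_of_mul_eq h6
      rw [mul_assoc, h7, mul_inv_rev]
      group
    rw [h2]
    exact D.mul_mem (D.mul_mem hd' (D.inv_mem (D.zpow_mem hδD m))) (D.inv_mem hd)
  have h2 : ((u' ^ c')⁻¹ * u ^ c * z ^ m) ^ (e * e') = z ^ ((c : ℤ) * e' - (c' : ℤ) * e + m * (e * e')) := by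
    have c1 : Commute ((u' ^ c')⁻¹) (u ^ c) := by
      refine (Commute.pow_right (cu _ ?_) c)
      rw [map_inv, map_pow, eu', one_pow, inv_one]
    have c2 : Commute ((u' ^ c')⁻¹ * u ^ c) (z ^ m) := by
      refine ((cz _ ?_).zpow_right m)
      rw [map_mul, map_inv, map_pow, map_pow, eu, eu', one_pow, one_pow, inv_one, one_mul]
    rw [c2.mul_pow, c1.mul_pow]
    have e1 : ((u' ^ c')⁻¹) ^ (e * e') = z ^ (-((c' : ℤ) * e)) := by
      rw [inv_pow, ← pow_mul, show c' * (e * e') = e' * (c' * e) by ring, pow_mul, hz', zpow_neg, ← zpow_natCast]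
      push_cast
      rfl
    have e2 : (u ^ c) ^ (e * e') = z ^ ((c : ℤ) * e') := by
      rw [← pow_mul, show c * (e * e') = e * (c * e') by ring, pow_mul, hz, ← zpow_natCast]
      push_cast
      rfl
    have e3 : (z ^ m) ^ (e * e') = z ^ (m * ((e : ℤ) * e')) := by
      rw [← zpow_natCast, ← zpow_mul]
      push_cast
      rfl
    rw [e1, e2, e3, ← zpow_add, ← zpow_add]
    congr 1
    ring
  have h3 : z ^ ((c : ℤ) * e' - (c' : ℤ) * e + m * (e * e')) = 1 := by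
    apply dis
    rw [← h2]
    exact D.pow_mem h1 _
  have h4 : (orderOf z : ℤ) ∣ (c : ℤ) * e' - (c' : ℤ) * e + m * (e * e') := orderOf_dvd_iff_zpow_eq_one.2 h3
  have he : (0 : ℤ) < e := by omega
  have he' : (0 : ℤ) < e' := by omega
  have hee : (0 : ℤ) < (e : ℤ) * e' := mul_pos he he'
  have a1 : |(c : ℤ) * e' - (c' : ℤ) * e| < (e : ℤ) * e' := by
    rw [abs_lt]
    have b1 : (c : ℤ) * e' < (e : ℤ) * e' := by
      have : (c : ℤ) < e := by exact_mod_cast hc
      exact mul_lt_mul_of_pos_right this he'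
    have b2 : (c' : ℤ) * e < (e : ℤ) * e' := by
      have : (c' : ℤ) < e' := by exact_mod_cast hc'
      rw [mul_comm (e : ℤ)]
      exact mul_lt_mul_of_pos_right this he
    have b3 : (0 : ℤ) ≤ (c : ℤ) * e' := by positivity
    have b4 : (0 : ℤ) ≤ (c' : ℤ) * e := by positivity
    constructor <;> linarith
  have ht' : |m| ≤ W := by
    rw [abs_le] at ht ⊢
    have : (0 : ℤ) ≤ W := by positivity
    constructor <;> omega
  have a2 : |(c : ℤ) * e' - (c' : ℤ) * e + m * (e * e')| < orderOf z := by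
    refine (abs_add_le _ _).trans_lt ?_
    rw [abs_mul, abs_of_pos hee]
    have b1 : |m| * ((e : ℤ) * e') ≤ (W : ℤ) * ((e : ℤ) * e') := mul_le_mul_of_nonneg_right ht' hee.le
    have b2 : ((e : ℤ) * e') * (W + 2) < orderOf z := by exact_mod_cast big
    nlinarith
  have h5 := Int.eq_zero_of_abs_lt_dvd h4 a2
  -- `m = c' / e' - c / e`
  have h6 : |m * ((e : ℤ) * e')| < (e : ℤ) * e' := by
    have : m * ((e : ℤ) * e') = -((c : ℤ) * e' - (c' : ℤ) * e) := by linarith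
    rw [this, abs_neg]
    exact a1
  rw [abs_mul, abs_of_pos hee] at h6
  have h7 : |m| < 1 := by
    by_contra hm
    push Not at hm
    have := mul_le_mul_of_nonneg_right hm hee.le
    linarith
  have h8 : m = 0 := Int.abs_lt_one_iff.1 h7
  rw [h8]; rfl

end

end Pool.Agent.Lib.MP_688fd0_co.SQ5.H62
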