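import Pool.Agent.Lib.MP_688fd0_co.SQ5.NA.Iface
import Pool.Agent.Lib.MP_688fd0_co.SQ5.H62.Ext
import Pool.Agent.Lib.MP_688fd0_co.SQ5.H62.Uni

/-!
NEAR-ALL, row EXT (helper62), and the union of the frontiers of several worlds.
-/

set_option autoImplicit false

namespace Pool.Agent.Lib.MP_688fd0_co.SQ5.NA

open Pool.Agent.Lib.MP_688fd0_co.OSF Pool.Agent.Lib.MP_688fd0_co.SQ2 Pool.Agent.Lib.MP_688fd0_co.SQ3
open Pool.Agent.Lib.MP_688fd0_co.SQ4 Pool.Agent.Lib.MP_688fd0_co.SQ5.N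

/-- Row EXT. -/
theorem ext : ExtS := by
  intro Q _ _ B U K F F' x s₁ s₂ X n hF _ h
  obtain ⟨Y, h1, h2⟩ := H62.ext_all.{0, 0, 0} hF h
  exact ⟨Y, h1, fun X' hv => h2 X' hv⟩

section

variable {Q : Type} [Group Q] {B : Lb.{0, 0} Q} {a b : B.L} {eps : Q →* ℤˣ} {D : Subgroup Q} {σ σ' : Type}
  {t : σ → B.L} {t' : σ' → B.L} {u u' : Q} {i : σ → ℕ} {i' : σ' → ℕ} {e e' k : ℕ}

theorem mem_FS [DecidableEq Q] [Fintype D] {y : Q} : y ∈ FS D u e ↔ ∃ c < e, ∃ d ∈ D, y = u ^ c * d := by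
  unfold FS
  rw [Finset.mem_image]
  constructor
  · rintro ⟨v, -, rfl⟩
    exact ⟨v.1, v.1.2, v.2, v.2.2, rfl⟩
  · rintro ⟨c, hc, d, hd, rfl⟩
    exact ⟨(⟨c, hc⟩, ⟨d, hd⟩), Finset.mem_univ _, rfl⟩

/-- The frontiers of two worlds do not meet (except in common vertices) up to the height `W`. -/
theorem FS_disj [DecidableEq Q] [Fintype D] (H : HypS B a b t eps D u i e k) (H' : HypS B a b t' eps D u' i' e' k)
    (hu : u ^ e = u' ^ e') {W : ℕ} (big : e * e' * (W + 2) < orderOf (u ^ e)) {s y : Q} (hs : s ∈ FS D u e)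
    (hy : y ∈ FS D u' e') {j : ℤ} (hj : |j| ≤ W) (h : (H.up.U ^ j) s = y) : j = 0 := by
  obtain ⟨c, hc, d, hd, rfl⟩ := mem_FS.1 hs
  obtain ⟨c', hc', d', hd', rfl⟩ := mem_FS.1 hy
  exact H62.two_worlds H.ea H.eb H.leD H.cen H.eu H'.eu rfl hu.symm H.mw
    (fun n hn => by
      rw [← zpow_natCast, ← zpow_mul] at hn ⊢
      exact H.dis hn) big hc hc' hd hd' hj h

theorem FS_card [DecidableEq Q] [Fintype D] : (FS D u e).card ≤ e * Nat.card D := by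
  unfold FS
  refine Finset.card_image_le.trans ?_
  rw [Finset.card_univ, Fintype.card_prod, Fintype.card_fin, Nat.card_eq_fintype_card]

end

end Pool.Agent.Lib.MP_688fd0_co.SQ5.NA
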